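import Pool.Agent.Helper22.FoldTransport

set_option autoImplicit false

open Pool.Agent.Helper22.Fold

/-- For every convex polygon `P` (with boundary parametrized by arc length by `γ`) and every
`Q₀`, only finitely many points `x` of the boundary of `P` have a folding `Q_x` (a convex
polyhedron, possibly a flat polygon covered twice, whose surface is isometric to the surface
glued by the perimeter-halving gluing at `x`) that is congruent to `Q₀`. -/
theorem Pool.Agent.Results.MP_d67387_co.FiniteCongruentFoldings.result
    (P : Set E2) (hP : IsConvexPolygon P) (L : ℝ) (γ : ℝ → E2) (hγ : IsBoundaryParam P L γ)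
    (Q₀ : Set E3) :
    {x : E2 | ∃ s : ℝ, ∃ Q : Set E3, γ s = x ∧ FoldsTo P L γ s Q ∧ Congr Q Q₀}.Finite :=
  finite_foldings hP hγ Q₀
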